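import Pool.Agent.H782R2.SFinal

/-! The golden mean is Diophantine (proof copied from the starting file
`Results/MP_d23f22_an/NoThreshold.lean`); positive Diophantine numbers are not integers. -/

set_option autoImplicit false

open Set Real
open Pool.Agent.H782R2.Std

namespace Pool.Agent.Y498.SU

lemma golden_dioph : IsDiophantine ((√5 - 1) / 2) := by
  refine ⟨1 / 8, 3, by norm_num, by norm_num, fun m n hm hn => ?_⟩
  set g : ℝ := (√5 - 1) / 2 with hg
  have h5 : √5 ^ 2 = (5 : ℝ) := sq_sqrt (by norm_num)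
  have h5' : (2 : ℝ) < √5 ∧ √5 < 3 := by
    constructor
    · rw [Real.lt_sqrt (by norm_num)]; norm_num
    · rw [Real.sqrt_lt' (by norm_num)]; norm_num
  have hg1 : g ^ 2 + g = 1 := by rw [hg]; nlinarith
  have hn' : (1 : ℝ) ≤ n := by exact_mod_cast hn
  have hn0 : (0 : ℝ) < n := by linarith
  have hm0 : (0 : ℝ) < m := by exact_mod_cast hm
  -- the integer m² + mn - n² is not zero
  have hne : ((m : ℤ) ^ 2 + m * n - n ^ 2) ≠ 0 := by
    intro h
    have h1 : (2 * (m : ℝ) + n) ^ 2 = 5 * (n : ℝ) ^ 2 := by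
      have : ((m : ℝ) ^ 2 + m * n - n ^ 2) = 0 := by exact_mod_cast h
      linear_combination 4 * this
    have h2 : √5 = (2 * (m : ℝ) + n) / n := by
      rw [eq_div_iff hn0.ne']
      have h3 : (√5 * n) ^ 2 = (2 * (m : ℝ) + n) ^ 2 := by rw [mul_pow, h5, h1]
      exact (pow_left_inj₀ (by positivity) (by positivity) two_ne_zero).1 h3
    have hirr : Irrational √5 := by
      have := Nat.Prime.irrational_sqrt (p := 5) (by norm_num)
      exact_mod_cast this
    apply hirr
    refine ⟨(2 * m + n : ℚ) / n, ?_⟩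
    rw [h2]
    push_cast
    ring
  have habs : (1 : ℝ) ≤ |(m : ℝ) ^ 2 + m * n - n ^ 2| := by
    have h1 : (1 : ℤ) ≤ |(m : ℤ) ^ 2 + m * n - n ^ 2| := Int.one_le_abs hne
    exact_mod_cast h1
  have hfac : ((m : ℝ) ^ 2 + m * n - n ^ 2) = n ^ 2 * ((m / n - g) * (m / n + g + 1)) := by
    have : (m / n - g) * (m / n + g + 1) = (m / n : ℝ) ^ 2 + m / n - 1 := by
      linear_combination -hg1
    rw [this]
    field_simp
  have e3 : (n : ℝ) ^ (3 : ℝ) = n ^ 3 := by
    rw [show (3 : ℝ) = ((3 : ℕ) : ℝ) by norm_num, rpow_natCast]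
  rw [e3]
  have hsmall : (1 / 8 : ℝ) / n ^ 3 ≤ 1 / 8 / n ^ 2 := by
    apply div_le_div_of_nonneg_left (by norm_num) (by positivity)
    exact pow_le_pow_right₀ hn' (by norm_num)
  refine lt_of_le_of_lt hsmall ?_
  rw [div_lt_iff₀ (by positivity)]
  by_cases hbig : 1 ≤ |g - m / n|
  · have : (1 : ℝ) ≤ n ^ 2 := one_le_pow₀ hn'
    nlinarith
  · push Not at hbig
    have hb := abs_lt.1 hbig
    have hpos : 0 < (m / n + g + 1 : ℝ) := by
      have : 0 < g := by rw [hg]; linarith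
      positivity
    have hup : (m / n + g + 1 : ℝ) < 4 := by
      have : g < 1 := by rw [hg]; linarith
      linarith
    rw [hfac, abs_mul, abs_mul, abs_of_pos hpos, abs_of_pos (by positivity : (0:ℝ) < n ^ 2),
      abs_sub_comm] at habs
    have hnn : 0 ≤ (n : ℝ) ^ 2 * |g - m / n| := by positivity
    nlinarith

lemma dioph_ne_int {ρ : ℝ} (h : IsDiophantine ρ) (h0 : 0 < ρ) (k : ℤ) : ρ ≠ k := by
  intro hk
  obtain ⟨C, d, hC, hd, hmn⟩ := h
  have hk0 : 0 < k := by rw [hk] at h0; exact_mod_cast h0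
  have h1 := hmn k.toNat 1 (by omega) one_pos
  have h3 : ((k.toNat : ℕ) : ℝ) = ((k : ℤ) : ℝ) := by
    have : ((k.toNat : ℕ) : ℤ) = k := Int.toNat_of_nonneg hk0.le
    exact_mod_cast congrArg (fun z : ℤ => (z : ℝ)) this
  rw [hk, h3] at h1
  simp at h1
  linarith

end Pool.Agent.Y498.SU
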