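import Pool.Agent.H782R2.SFinal

set_option autoImplicit false

open Filter Topology Set Real
open Pool.Agent.H782R2.Std

namespace Pool.Agent.Y498.SU

noncomputable section

/-- An orbit climbing by `1` in `k` steps excludes invariant circles. -/
lemma no_circle_of_climb {V : UnitAddCircle → ℝ} (hV : Continuous V) {lam : ℝ} (θ : UnitAddCircle)
    (k : ℕ) (step : ∀ m : ℤ, (F V lam)^[k] (θ, (m : ℝ)) = (θ, ((m + 1 : ℤ) : ℝ))) (C : Set Cyl) :
    ¬ IsInvCircle V lam C := by
  intro hC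
  obtain ⟨M, hM⟩ := orbit_bdd hV hC
  have many : ∀ (n : ℕ) (m : ℤ), ((F V lam)^[k])^[n] (θ, (m : ℝ)) =
      (θ, ((m + n : ℤ) : ℝ)) := by
    intro n
    induction n with
    | zero => intro m; simp
    | succ n ih =>
      intro m
      rw [Function.iterate_succ_apply, step, ih]
      congr 2
      push_cast
      ring
  obtain ⟨m, hm⟩ := exists_int_lt (-M)
  obtain ⟨n, hn⟩ := exists_nat_gt (M - m)
  have h1 := hM (θ, (m : ℝ)) hm (k * n)
  rw [Function.iterate_mul, many] at h1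
  push_cast at h1
  linarith

lemma no_circle3 {d lam : ℝ} (h0 : 0 < d) (h1 : d < 1) (θ : ℝ)
    (hθ : 2 * (lam * V0 d θ) + lam * V0 d (θ + lam * V0 d θ) = 1) (C : Set Cyl) :
    ¬ IsInvCircle (VV d) lam C := by
  refine no_circle_of_climb (VV_cont h0 h1) (θ : UnitAddCircle) 3 (fun m => ?_) C
  set κ := lam * V0 d θ with hκ
  have s1 : F (VV d) lam ((θ : UnitAddCircle), (m : ℝ)) =
      (((θ + κ : ℝ) : UnitAddCircle), m + κ) := by
    unfold F
    simp only [VV_coe]
    rw [← hκ, ← AddCircle.coe_add]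
    refine Prod.ext ?_ rfl
    rw [coe_eq_iff]
    exact ⟨m, by ring⟩
  have s2 : F (VV d) lam (((θ + κ : ℝ) : UnitAddCircle), m + κ) =
      ((θ : UnitAddCircle), m + 1 - κ) := by
    unfold F
    simp only [VV_coe]
    have e : (m : ℝ) + κ + lam * V0 d (θ + κ) = m + 1 - κ := by linarith
    rw [e, ← AddCircle.coe_add]
    refine Prod.ext ?_ rfl
    rw [coe_eq_iff]
    exact ⟨m + 1, by push_cast; ring⟩
  have s3 : F (VV d) lam ((θ : UnitAddCircle), (m : ℝ) + 1 - κ) =
      ((θ : UnitAddCircle), ((m + 1 : ℤ) : ℝ)) := by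
    unfold F
    simp only [VV_coe]
    rw [← hκ]
    have e : (m : ℝ) + 1 - κ + κ = ((m + 1 : ℤ) : ℝ) := by push_cast; ring
    rw [e, ← AddCircle.coe_add]
    refine Prod.ext ?_ rfl
    rw [coe_eq_iff]
    exact ⟨m + 1, by push_cast; ring⟩
  rw [Function.iterate_succ_apply, Function.iterate_succ_apply, Function.iterate_succ_apply,
    Function.iterate_zero_apply, s1, s2, s3]

lemma no_circle1 {d lam : ℝ} (h0 : 0 < d) (h1 : d < 1) (θ : ℝ)
    (hθ : lam * V0 d θ = 1) (C : Set Cyl) : ¬ IsInvCircle (VV d) lam C := by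
  refine no_circle_of_climb (VV_cont h0 h1) (θ : UnitAddCircle) 1 (fun m => ?_) C
  rw [Function.iterate_one]
  unfold F
  simp only [VV_coe]
  rw [hθ, ← AddCircle.coe_add]
  refine Prod.ext ?_ (by push_cast; rfl)
  rw [coe_eq_iff]
  exact ⟨m + 1, by push_cast; ring⟩

/-! Estimates of the argument `phi`. -/

lemma le_phi {d t β : ℝ} (h0 : 0 < d) (h1 : d < 1) (hb : -(π/2) < β) (hb' : β < π/2)
    (h : sin β ≤ d * sin (2 * π * t - β)) : β ≤ phi d t := by
  have hA := pA_pos h0 h1 t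
  have hc : 0 < cos β := cos_pos_of_mem_Ioo ⟨hb, hb'⟩
  unfold phi
  rw [← arctan_tan hb hb']
  apply arctan_mono
  rw [tan_eq_sin_div_cos, div_le_div_iff₀ hc hA]
  unfold pA pB
  rw [sin_sub] at h
  nlinarith

lemma phi_le {d t β : ℝ} (h0 : 0 < d) (h1 : d < 1) (hb : -(π/2) < β) (hb' : β < π/2)
    (h : d * sin (2 * π * t - β) ≤ sin β) : phi d t ≤ β := by
  have hA := pA_pos h0 h1 t
  have hc : 0 < cos β := cos_pos_of_mem_Ioo ⟨hb, hb'⟩
  unfold phi
  rw [← arctan_tan hb hb']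
  apply arctan_mono
  rw [tan_eq_sin_div_cos, div_le_div_iff₀ hA hc]
  unfold pA pB
  rw [sin_sub] at h
  nlinarith

/-- `V(y) ≥ -2y` on `[0,1/2]`. -/
lemma V0_ge {d y : ℝ} (h0 : 0 < d) (h1 : d < 1) (hy : 0 ≤ y) (hy' : y ≤ 1/2) :
    -(2 * y) ≤ V0 d y := by
  rcases eq_or_lt_of_le hy' with h | h
  · rw [h, V0_half]; norm_num
  · have hp := pi_pos
    have h2 : phi d y ≤ π * y := by
      refine phi_le h0 h1 (by nlinarith) (by nlinarith) ?_
      have e : 2 * π * y - π * y = π * y := by ring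
      rw [e]
      have hs : 0 ≤ sin (π * y) := sin_nonneg_of_nonneg_of_le_pi (by positivity) (by nlinarith)
      nlinarith
    unfold V0
    have h3 : 2 / π * phi d y ≤ 2 / π * (π * y) := mul_le_mul_of_nonneg_left h2 (by positivity)
    have h4 : 2 / π * (π * y) = 2 * y := by field_simp
    linarith

/-- the value at the right extremal point -/
lemma V0_right {δ : ℝ} (hδ : 0 < δ) (hδ' : δ < π/2) :
    V0 (cos δ) (1/2 + δ/(2*π)) = 1 - 2*δ/π := by
  have hp := pi_pos
  have hs : 0 < sin δ := sin_pos_of_pos_of_lt_pi hδ (by linarith)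
  unfold V0 phi pA pB
  have h1 : 2 * π * (1/2 + δ/(2*π)) = δ + π := by field_simp; ring
  rw [h1, sin_add_pi, cos_add_pi]
  have h2 : cos δ * -sin δ / (1 + cos δ * -cos δ) = -tan (π/2 - δ) := by
    have h3 : 1 + cos δ * -cos δ = sin δ ^ 2 := by
      have := sin_sq_add_cos_sq δ
      linear_combination -this
    rw [h3, tan_eq_sin_div_cos, sin_pi_div_two_sub, cos_pi_div_two_sub]
    field_simp
  rw [h2, ← tan_neg, arctan_tan (by linarith) (by linarith)]
  field_simp

/-- the value at the left extremal point -/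
lemma V0_left {δ : ℝ} (hδ : 0 < δ) (hδ' : δ < π/2) :
    V0 (cos δ) (1/2 - δ/(2*π)) = -(1 - 2*δ/π) := by
  have hp := pi_pos
  have hs : 0 < sin δ := sin_pos_of_pos_of_lt_pi hδ (by linarith)
  unfold V0 phi pA pB
  have h1 : 2 * π * (1/2 - δ/(2*π)) = π - δ := by field_simp
  rw [h1, sin_pi_sub, cos_pi_sub]
  have h2 : cos δ * sin δ / (1 + cos δ * -cos δ) = tan (π/2 - δ) := by
    have h3 : 1 + cos δ * -cos δ = sin δ ^ 2 := by
      have := sin_sq_add_cos_sq δ
      linear_combination -this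
    rw [h3, tan_eq_sin_div_cos, sin_pi_div_two_sub, cos_pi_div_two_sub]
    field_simp
  rw [h2, arctan_tan (by linarith) (by linarith)]
  field_simp

/-- `V(x) ≤ -2(1-s)x` for `0 ≤ x ≤ 1/2 - δ/(2π)`, `s = πδ/2`. -/
lemma V0_le {δ x : ℝ} (hδ : 0 < δ) (hδ' : π * δ / 2 ≤ 1) (hx : 0 ≤ x) (hx' : x ≤ 1/2 - δ/(2*π)) :
    V0 (cos δ) x ≤ -(2 * (1 - π*δ/2) * x) := by
  have hp := pi_pos
  have hp3 := pi_gt_three
  have hδ2 : δ < π/2 := by nlinarith
  have h0 : 0 < cos δ := cos_pos_of_mem_Ioo ⟨by linarith, hδ2⟩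
  have h1 : cos δ < 1 := by
    rw [← cos_zero]
    exact cos_lt_cos_of_nonneg_of_le_pi (le_refl _) (by linarith) hδ
  set s := π*δ/2 with hs
  have hs0 : 0 < s := by positivity
  set A := π * x with hA
  have hA0 : 0 ≤ A := by positivity
  have hA1 : A ≤ π/2 - δ/2 := by
    have : π * x ≤ π * (1/2 - δ/(2*π)) := mul_le_mul_of_nonneg_left hx' hp.le
    have e : π * (1/2 - δ/(2*π)) = π/2 - δ/2 := by field_simp
    linarith
  have hcosA : sin (δ/2) ≤ cos A := by
    rw [← cos_pi_div_two_sub]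
    exact cos_le_cos_of_nonneg_of_le_pi hA0 (by linarith) hA1
  have hsδ : 0 ≤ sin (δ/2) := sin_nonneg_of_nonneg_of_le_pi (by linarith) (by linarith)
  have hsδ' : sin (δ/2) ≤ δ/2 := sin_le (by linarith)
  have hsA : s * A ≤ π/2 := by nlinarith
  have hsin1 : 2 / π * (s * A) ≤ sin (s * A) := mul_le_sin (by positivity) hsA
  have hsin2 : sin ((1+s) * A) ≤ (1+s) * A := sin_le (by positivity)
  have hcosδ : 1 - cos δ = 2 * sin (δ/2)^2 := by
    have h2 : cos δ = 1 - 2 * sin (δ/2)^2 := by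
      have e : δ = 2 * (δ/2) := by ring
      rw [e, cos_two_mul]
      have := sin_sq_add_cos_sq (δ/2)
      have e2 : 2 * (δ/2) / 2 = δ/2 := by ring
      rw [e2]
      linarith
    linarith
  have hkey : sin ((1-s)*A) ≤ cos δ * sin ((1+s)*A) := by
    have e1 : sin ((1+s)*A) - sin ((1-s)*A) = 2 * cos A * sin (s*A) := by
      have e2 : (1+s)*A = A + s*A := by ring
      have e3 : (1-s)*A = A - s*A := by ring
      rw [e2, e3, sin_add, sin_sub]
      ring
    have e4 : (1 - cos δ) * sin ((1+s)*A) ≤ 2 * cos A * sin (s*A) := by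
      have h5 : (1 - cos δ) * sin ((1+s)*A) ≤ (2 * sin (δ/2)^2) * (2 * A) := by
        rw [hcosδ]
        refine mul_le_mul_of_nonneg_left (hsin2.trans ?_) (by positivity)
        nlinarith
      have h6 : (2 * sin (δ/2)^2) * (2 * A) ≤ 2 * sin (δ/2) * (δ * A) := by
        have : sin (δ/2) * sin (δ/2) ≤ sin (δ/2) * (δ/2) := mul_le_mul_of_nonneg_left hsδ' hsδ
        nlinarith
      have h7 : δ * A ≤ sin (s * A) := by
        have e5 : 2 / π * (s * A) = δ * A := by rw [hs]; field_simp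
        linarith
      have h8 : 2 * sin (δ/2) * (δ * A) ≤ 2 * cos A * sin (s*A) := by
        have h9 : 0 ≤ δ * A := by positivity
        calc 2 * sin (δ/2) * (δ * A) ≤ 2 * cos A * (δ * A) := by gcongr
          _ ≤ 2 * cos A * sin (s*A) := by
              refine mul_le_mul_of_nonneg_left h7 ?_
              linarith
      linarith
    linarith
  have hphi : (1-s)*A ≤ phi (cos δ) x := by
    refine le_phi h0 h1 ?_ ?_ ?_
    · have : 0 ≤ (1-s)*A := mul_nonneg (by linarith) hA0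
      linarith
    · nlinarith
    · have e : 2 * π * x - (1-s)*A = (1+s)*A := by rw [hA]; ring
      rw [e]
      exact hkey
  unfold V0
  have h3 : 2 / π * ((1-s)*A) ≤ 2 / π * phi (cos δ) x := mul_le_mul_of_nonneg_left hphi (by positivity)
  have h4 : 2 / π * ((1-s)*A) = 2 * (1-s) * x := by rw [hA]; field_simp
  linarith

end

end Pool.Agent.Y498.SU
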