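import Pool.Agent.Y498.SU.Accel

set_option autoImplicit false

open Filter Topology Set Real
open Pool.Agent.H782R2.Std

namespace Pool.Agent.Y498.SU

noncomputable section

lemma V0_zero (d : ℝ) : V0 d 0 = 0 := by
  unfold V0 phi pB
  simp

/-- No circle when the climbing equation has a point above `1`. -/
lemma no_circle_ivt3 {d lam : ℝ} (h0 : 0 < d) (h1 : d < 1) (a b : ℝ) (hab : a ≤ b)
    (ha : V0 d a = 0)
    (hb : 1 ≤ 2 * (lam * V0 d b) + lam * V0 d (b + lam * V0 d b)) (C : Set Cyl) :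
    ¬ IsInvCircle (VV d) lam C := by
  have hc : Continuous fun θ : ℝ => 2 * (lam * V0 d θ) + lam * V0 d (θ + lam * V0 d θ) := by
    have := V0_cont h0 h1
    fun_prop
  have ha' : 2 * (lam * V0 d a) + lam * V0 d (a + lam * V0 d a) = 0 := by
    rw [ha, mul_zero, mul_zero, add_zero, ha, mul_zero, zero_add]
  obtain ⟨θ, -, hθ⟩ := intermediate_value_Icc (f := fun θ : ℝ => 2 * (lam * V0 d θ) +
    lam * V0 d (θ + lam * V0 d θ)) hab hc.continuousOn
    (show (1 : ℝ) ∈ Icc _ _ from ⟨by rw [ha']; norm_num, hb⟩)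
  exact no_circle3 h0 h1 θ hθ C

lemma no_circle_ivt1 {d lam : ℝ} (h0 : 0 < d) (h1 : d < 1) (a b : ℝ) (hab : a ≤ b)
    (ha : V0 d a = 0) (hb : 1 ≤ lam * V0 d b) (C : Set Cyl) :
    ¬ IsInvCircle (VV d) lam C := by
  have hc : Continuous fun θ : ℝ => lam * V0 d θ := by
    have := V0_cont h0 h1
    fun_prop
  obtain ⟨θ, -, hθ⟩ := intermediate_value_Icc (f := fun θ : ℝ => lam * V0 d θ) hab hc.continuousOn
    (show (1 : ℝ) ∈ Icc _ _ from ⟨by rw [ha]; norm_num, hb⟩)
  exact no_circle1 h0 h1 θ hθ C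

/-- The main estimate. -/
theorem no_circle_all {η δ lam : ℝ} (hη : 0 < η) (hη' : η ≤ 1/4) (hδ : 0 < δ) (hδ' : δ ≤ η^2/2)
    (hl : 1/2 + η ≤ |lam|) (hl' : η ≤ |lam - 1|) (C : Set Cyl) :
    ¬ IsInvCircle (VV (cos δ)) lam C := by
  have hp := pi_pos
  have hp3 := pi_gt_three
  have hp4 := pi_lt_four
  have hδη : δ ≤ η / 8 := by nlinarith
  have hδπ : δ / π ≤ δ / 3 := div_le_div_of_nonneg_left hδ.le (by norm_num) hp3.le
  have hδπ0 : 0 < δ / π := by positivity
  have e2 : δ / (2 * π) = (δ / π) / 2 := by field_simp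
  have e3 : 2 * δ / π = 2 * (δ / π) := by ring
  have hδ2 : δ < π/2 := by linarith
  have h0 : 0 < cos δ := cos_pos_of_mem_Ioo ⟨by linarith, hδ2⟩
  have h1 : cos δ < 1 := by
    rw [← cos_zero]
    exact cos_lt_cos_of_nonneg_of_le_pi (le_refl _) (by linarith) hδ
  have hR := V0_right hδ hδ2
  rw [e2, e3] at hR
  set q := δ / π with hq
  have hq1 : q ≤ η^2 / 6 := by linarith
  have hq2 : q ≤ η / 24 := by nlinarith
  rcases le_total 0 lam with hpos | hneg
  · rw [abs_of_nonneg hpos] at hl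
    rcases le_total lam 1 with hle | hge
    · -- lam in [1/2 + η, 1 - η]
      rw [abs_of_nonpos (by linarith)] at hl'
      have hl2 : lam ≤ 1 - η := by linarith
      refine no_circle_ivt3 h0 h1 (1/2) (1/2 + q/2) (by linarith) (V0_half _) ?_ C
      rw [hR]
      set v := 1 - 2 * q with hv
      have hv1 : v ≤ 1 := by linarith
      have hy0 : 1/2 ≤ lam * v := by
        have : (1/2 + η) * v ≤ lam * v := mul_le_mul_of_nonneg_right hl (by linarith)
        nlinarith
      have hy1 : lam * v ≤ 1 - η := by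
        have : lam * v ≤ lam * 1 := mul_le_mul_of_nonneg_left hv1 hpos
        linarith
      have hper : V0 (cos δ) (1/2 + q/2 + lam * v) = V0 (cos δ) (q/2 + lam * v - 1/2) := by
        have e : 1/2 + q/2 + lam * v = (q/2 + lam * v - 1/2) + 1 := by ring
        rw [e, V0_per]
      rw [hper]
      have h3 := V0_ge h0 h1 (y := q/2 + lam * v - 1/2) (by linarith) (by linarith)
      have h4 : lam * (-(2 * (q/2 + lam * v - 1/2))) ≤ lam * V0 (cos δ) (q/2 + lam * v - 1/2) :=
        mul_le_mul_of_nonneg_left h3 hpos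
      have h5 : 2 * η^2 ≤ (2*lam - 1) * (1 - lam) := by
        have h6 : 2 * η ≤ 2 * lam - 1 := by linarith
        have h7 : η ≤ 1 - lam := by linarith
        nlinarith
      have h6 : q * (lam + 4 * lam * (1 - lam)) ≤ 2 * q := by
        have h7 : lam + 4 * lam * (1 - lam) ≤ 2 := by nlinarith [sq_nonneg (2*lam - 1)]
        nlinarith
      have e4 : 2 * (lam * v) + lam * (-(2 * (q/2 + lam * v - 1/2))) =
          1 + (2*lam - 1) * (1 - lam) - q * (lam + 4 * lam * (1 - lam)) := by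
        rw [hv]; ring
      nlinarith
    · -- lam ≥ 1 + η
      rw [abs_of_nonneg (by linarith)] at hl'
      refine no_circle_ivt1 h0 h1 (1/2) (1/2 + q/2) (by linarith) (V0_half _) ?_ C
      rw [hR]
      have : (1 + η) * (1 - 2 * q) ≤ lam * (1 - 2 * q) :=
        mul_le_mul_of_nonneg_right (by linarith) (by linarith)
      nlinarith
  · -- lam ≤ -(1/2 + η)
    rw [abs_of_nonpos hneg] at hl
    have hL := V0_left hδ hδ2
    rw [e2, e3] at hL
    set μ := -lam with hμ
    have hlam : lam = -μ := by rw [hμ]; ring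
    set xs := 1/2 - q/2 with hxs
    have hμ0 : 0 < μ := by linarith
    -- the point `θc`
    have hc : Continuous fun θ : ℝ => θ + lam * V0 (cos δ) θ := by
      have := V0_cont h0 h1
      fun_prop
    obtain ⟨θ, hθm, hθ⟩ := intermediate_value_Icc (f := fun θ : ℝ => θ + lam * V0 (cos δ) θ)
      (a := 0) (b := xs) (by linarith) hc.continuousOn
      (show xs ∈ Icc _ _ from ⟨by rw [V0_zero]; linarith, by
        rw [hL, hlam]
        have : 0 ≤ μ * (1 - 2*q) := mul_nonneg hμ0.le (by linarith)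
        linarith⟩)
    simp only at hθ
    refine no_circle_ivt3 h0 h1 0 θ hθm.1 (V0_zero _) ?_ C
    rw [hθ, hL]
    have hs1 : π * δ / 2 ≤ 2 * δ := by nlinarith
    have h3 := V0_le hδ (by linarith) hθm.1 (by rw [e2]; exact hθm.2)
    set s := π * δ / 2 with hs
    have hs0 : 0 < s := by positivity
    have hsη : s ≤ η / 4 := by linarith
    -- `w = 2 μ (1-s) ≥ 1`
    have hw : 1 ≤ 2 * μ * (1 - s) := by nlinarith
    have h4 : 2 * μ * (1 - s) * θ ≤ lam * V0 (cos δ) θ := by
      rw [hlam]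
      nlinarith
    have h5 : θ ≤ lam * V0 (cos δ) θ := by
      refine le_trans ?_ h4
      have := hθm.1
      nlinarith
    have h6 : xs ≤ 2 * (lam * V0 (cos δ) θ) := by linarith
    have h7 : lam * -(1 - 2 * q) = μ * (1 - 2 * q) := by rw [hlam]; ring
    rw [h7]
    have h8 : (1/2 + η) * (1 - 2*q) ≤ μ * (1 - 2*q) := mul_le_mul_of_nonneg_right hl (by linarith)
    nlinarith

theorem main (η : ℝ) (hη : 0 < η) : ∃ d1 : ℝ, 0 < d1 ∧ d1 < 1 ∧ ∀ d, d1 ≤ d → d < 1 →
    ∀ lam : ℝ, 1/2 + η ≤ |lam| → η ≤ |lam - 1| → ∀ C : Set Cyl, ¬ IsInvCircle (VV d) lam C := by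
  have hp := pi_gt_three
  set η' := min η (1/4) with hη'
  have h0 : 0 < η' := lt_min hη (by norm_num)
  have h1 : η' ≤ 1/4 := min_le_right _ _
  have h2 : η' ≤ η := min_le_left _ _
  have h3 : η'^2/2 < π/2 := by nlinarith
  have h4 : 0 < η'^2/2 := by positivity
  refine ⟨cos (η'^2/2), cos_pos_of_mem_Ioo ⟨by linarith, h3⟩, ?_, fun d hd hd1 lam hl hl' C => ?_⟩
  · rw [← cos_zero]
    exact cos_lt_cos_of_nonneg_of_le_pi (le_refl _) (by linarith) h4
  · have hd0 : -1 ≤ d := by
      have : 0 < cos (η'^2/2) := cos_pos_of_mem_Ioo ⟨by linarith, h3⟩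
      linarith
    have hcos : cos (arccos d) = d := cos_arccos hd0 hd1.le
    have h5 : arccos d ≤ η'^2/2 := by
      have h6 : arccos d ≤ arccos (cos (η'^2/2)) := arccos_le_arccos hd
      rwa [arccos_cos h4.le (by linarith)] at h6
    have h6 : 0 < arccos d := arccos_pos.2 hd1
    rw [← hcos]
    exact no_circle_all h0 h1 h6 h5 (by linarith) (by linarith) C

/-- The potentials are pairwise different. -/
theorem VV_inj {d d' : ℝ} (h : VV d = VV d') : d = d' := by
  have h1 : V0 d (1/4) = V0 d' (1/4) := by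
    have := congrFun h ((1/4 : ℝ) : UnitAddCircle)
    rwa [VV_coe, VV_coe] at this
  have hv : ∀ d : ℝ, V0 d (1/4) = -(2/π) * arctan d := by
    intro d
    unfold V0 phi pA pB
    have e : 2 * π * (1/4) = π/2 := by ring
    rw [e, sin_pi_div_two, cos_pi_div_two]
    simp
  rw [hv, hv] at h1
  have h2 : arctan d = arctan d' := by
    have hp : -(2/π) ≠ 0 := by
      have := pi_pos
      have : 0 < 2/π := by positivity
      linarith
    exact mul_left_cancel₀ hp h1
  exact arctan_injective h2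

end

end Pool.Agent.Y498.SU
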